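import Mathlib

namespace Pool.Agent.Results.MP_ace2a1_co.Counter

/-- A hypergraph on `Fin n` (given by its set of hyperedges) is chain-structured if for some
cyclic ordering `σ 0, σ 1, …, σ (n-1)` of the vertices every hyperedge is a nonempty run
of cyclically consecutive vertices. -/
def ChainStructured {n : ℕ} [NeZero n] (E : Finset (Finset (Fin n))) : Prop :=
  ∃ σ : Fin n ≃ Fin n, ∀ e ∈ E, ∃ (i : Fin n) (l : ℕ), 1 ≤ l ∧ l ≤ n ∧
    e = (Finset.range l).image (fun t => σ (i + Fin.ofNat n t))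

def Isomorphic {n : ℕ} (E₁ E₂ : Finset (Finset (Fin n))) : Prop :=
  ∃ φ : Fin n ≃ Fin n, E₁.image (fun e => e.image φ) = E₂

def TwoTwoEdges {n : ℕ} (E : Finset (Finset (Fin n))) : Prop :=
  (E.filter (fun e => e.card = 2)).card = 2 ∧ ∀ e ∈ E, e.card = 2 ∨ 3 ≤ e.card

def Indep {n : ℕ} (E : Finset (Finset (Fin n))) (I : Finset (Fin n)) : Prop :=
  ∀ e ∈ E, ¬ e ⊆ I

def CoopColouring {n : ℕ} (E₁ E₂ : Finset (Finset (Fin n))) : Prop :=
  ∃ I₁ I₂ : Finset (Fin n), Indep E₁ I₁ ∧ Indep E₂ I₂ ∧ I₁ ∪ I₂ = Finset.univ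

def E1 : Finset (Finset (Fin 6)) := {{0, 1}, {3, 4}, {1, 2, 3}, {4, 5, 0}}
def f : Fin 6 → Fin 6 := ![0, 3, 5, 1, 4, 2]
def g : Fin 6 → Fin 6 := ![0, 3, 5, 1, 4, 2]
def φ : Fin 6 ≃ Fin 6 := ⟨f, g, by unfold Function.LeftInverse; decide,
  by unfold Function.RightInverse Function.LeftInverse; decide⟩
def E2 : Finset (Finset (Fin 6)) := E1.image (fun e => e.image φ)

theorem result : ¬ ∀ (n : ℕ) [NeZero n] (E₁ E₂ : Finset (Finset (Fin n))),
    ChainStructured E₁ → ChainStructured E₂ → Isomorphic E₁ E₂ → TwoTwoEdges E₁ →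
    TwoTwoEdges E₂ → CoopColouring E₁ E₂ := by
  intro h
  have h1 : ∀ e ∈ E1, ∃ (i : Fin 6), ∃ l ∈ Finset.range 7, 1 ≤ l ∧ l ≤ 6 ∧
      e = (Finset.range l).image (fun t => (Equiv.refl (Fin 6)) (i + Fin.ofNat 6 t)) := by
    decide +kernel
  have h2 : ∀ e ∈ E2, ∃ (i : Fin 6), ∃ l ∈ Finset.range 7, 1 ≤ l ∧ l ≤ 6 ∧
      e = (Finset.range l).image (fun t => φ (i + Fin.ofNat 6 t)) := by
    decide +kernel
  have := h 6 E1 E2 ⟨Equiv.refl _, fun e he => by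
      obtain ⟨i, l, -, hl⟩ := h1 e he; exact ⟨i, l, hl⟩⟩
    ⟨φ, fun e he => by obtain ⟨i, l, -, hl⟩ := h2 e he; exact ⟨i, l, hl⟩⟩ ⟨φ, rfl⟩
    (by unfold TwoTwoEdges; decide +kernel) (by unfold TwoTwoEdges; decide +kernel)
  revert this
  unfold CoopColouring Indep
  decide +kernel

end Pool.Agent.Results.MP_ace2a1_co.Counter
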